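import Pool.Agent.Helper37.KDB.Extra
import Pool.Agent.Helper37.KDB.St.K1
import Pool.Agent.Helper37.KDB.St.K2

/-! Project KDB, piece K3: Kraft sums of the entries and of the lists of entries. -/

set_option autoImplicit false

namespace KDB.I.K3

open MeasureTheory KDB
open scoped ENNReal

variable (p : Par)

theorem half_bool : ∑' _ : Bool, (2 : ℝ≥0∞)⁻¹ ≤ 1 := by
  rw [tsum_fintype, Fintype.sum_bool, ENNReal.inv_two_add_inv_two]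

theorem kr_cEnt : ∑' e : Par.Ent p.d, p.cEnt e ≤ 1 := by
  have h9 : ∀ (kick : Bool) (ko nc : ℕ), ∑' x : (Fin p.d → ℤ) × (Fin p.d → ℤ),
      uw (64 * 2 ^ nc * p.ell ^ (if kick then ko + 1 else ko - p.b)) x.1 *
        uw (64 * 2 ^ nc) x.2 ≤ 1 :=
    fun kick ko nc => kr_prod
      (fun r => uw (64 * 2 ^ nc * p.ell ^ (if kick then ko + 1 else ko - p.b)) r)
      (fun _ r => uw (64 * 2 ^ nc) r) (kr_uw _) (fun _ => kr_uw _)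
  have h8 : ∀ (kick : Bool) (ko nc : ℕ),
      ∑' x : (Fin p.d → ℤ) × (Fin p.d → ℤ) × (Fin p.d → ℤ), uw (64 * 2 ^ nc) x.1 *
      (uw (64 * 2 ^ nc * p.ell ^ (if kick then ko + 1 else ko - p.b)) x.2.1 *
        uw (64 * 2 ^ nc) x.2.2) ≤ 1 :=
    fun kick ko nc => kr_prod
      (fun r : Fin p.d → ℤ => uw (64 * 2 ^ nc) r)
      (fun _ (x : (Fin p.d → ℤ) × (Fin p.d → ℤ)) =>
        uw (64 * 2 ^ nc * p.ell ^ (if kick then ko + 1 else ko - p.b)) x.1 *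
        uw (64 * 2 ^ nc) x.2) (kr_uw _) (fun _ => h9 kick ko nc)
  have h7 : ∀ (kick : Bool) (ko nc : ℕ),
      ∑' x : (Fin p.d → ℤ) × (Fin p.d → ℤ) × (Fin p.d → ℤ) × (Fin p.d → ℤ),
      uw (64 * 2 ^ nc) x.1 * (uw (64 * 2 ^ nc) x.2.1 *
      (uw (64 * 2 ^ nc * p.ell ^ (if kick then ko + 1 else ko - p.b)) x.2.2.1 *
        uw (64 * 2 ^ nc) x.2.2.2)) ≤ 1 :=
    fun kick ko nc => kr_prod
      (fun r : Fin p.d → ℤ => uw (64 * 2 ^ nc) r)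
      (fun _ (x : (Fin p.d → ℤ) × (Fin p.d → ℤ) × (Fin p.d → ℤ)) => uw (64 * 2 ^ nc) x.1 *
      (uw (64 * 2 ^ nc * p.ell ^ (if kick then ko + 1 else ko - p.b)) x.2.1 *
        uw (64 * 2 ^ nc) x.2.2)) (kr_uw _) (fun _ => h8 kick ko nc)
  have h6 : ∀ (kick : Bool) (ko : ℕ),
      ∑' x : ℕ × (Fin p.d → ℤ) × (Fin p.d → ℤ) × (Fin p.d → ℤ) × (Fin p.d → ℤ),
      gw x.1 * (uw (64 * 2 ^ x.1) x.2.1 * (uw (64 * 2 ^ x.1) x.2.2.1 *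
      (uw (64 * 2 ^ x.1 * p.ell ^ (if kick then ko + 1 else ko - p.b)) x.2.2.2.1 *
        uw (64 * 2 ^ x.1) x.2.2.2.2))) ≤ 1 :=
    fun kick ko => kr_prod (fun nc => gw nc)
      (fun nc (x : (Fin p.d → ℤ) × (Fin p.d → ℤ) × (Fin p.d → ℤ) × (Fin p.d → ℤ)) => uw (64 * 2 ^ nc) x.1 * (uw (64 * 2 ^ nc) x.2.1 *
      (uw (64 * 2 ^ nc * p.ell ^ (if kick then ko + 1 else ko - p.b)) x.2.2.1 *
        uw (64 * 2 ^ nc) x.2.2.2))) kr_gw (fun nc => h7 kick ko nc)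
  have h5 : ∀ (kick : Bool) (ko : ℕ),
      ∑' x : ℕ × ℕ × (Fin p.d → ℤ) × (Fin p.d → ℤ) × (Fin p.d → ℤ) × (Fin p.d → ℤ),
      sw (p.L * p.ell ^ (ko + 1)) x.1 *
      (gw x.2.1 * (uw (64 * 2 ^ x.2.1) x.2.2.1 * (uw (64 * 2 ^ x.2.1) x.2.2.2.1 *
      (uw (64 * 2 ^ x.2.1 * p.ell ^ (if kick then ko + 1 else ko - p.b)) x.2.2.2.2.1 *
        uw (64 * 2 ^ x.2.1) x.2.2.2.2.2)))) ≤ 1 :=
    fun kick ko => kr_prod (fun k => sw (p.L * p.ell ^ (ko + 1)) k)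
      (fun _ (x : ℕ × (Fin p.d → ℤ) × (Fin p.d → ℤ) × (Fin p.d → ℤ) × (Fin p.d → ℤ)) => gw x.1 * (uw (64 * 2 ^ x.1) x.2.1 * (uw (64 * 2 ^ x.1) x.2.2.1 *
      (uw (64 * 2 ^ x.1 * p.ell ^ (if kick then ko + 1 else ko - p.b)) x.2.2.2.1 *
        uw (64 * 2 ^ x.1) x.2.2.2.2)))) (kr_sw _) (fun _ => h6 kick ko)
  have h4 : ∀ (kick : Bool) (ko : ℕ),
      ∑' x : Bool × ℕ × ℕ × (Fin p.d → ℤ) × (Fin p.d → ℤ) × (Fin p.d → ℤ) × (Fin p.d → ℤ),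
      (2 : ℝ≥0∞)⁻¹ * (sw (p.L * p.ell ^ (ko + 1)) x.2.1 *
      (gw x.2.2.1 * (uw (64 * 2 ^ x.2.2.1) x.2.2.2.1 * (uw (64 * 2 ^ x.2.2.1) x.2.2.2.2.1 *
      (uw (64 * 2 ^ x.2.2.1 * p.ell ^ (if kick then ko + 1 else ko - p.b)) x.2.2.2.2.2.1 *
        uw (64 * 2 ^ x.2.2.1) x.2.2.2.2.2.2))))) ≤ 1 :=
    fun kick ko => kr_prod (fun _ : Bool => (2 : ℝ≥0∞)⁻¹)
      (fun _ (x : ℕ × ℕ × (Fin p.d → ℤ) × (Fin p.d → ℤ) × (Fin p.d → ℤ) × (Fin p.d → ℤ)) => sw (p.L * p.ell ^ (ko + 1)) x.1 *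
      (gw x.2.1 * (uw (64 * 2 ^ x.2.1) x.2.2.1 * (uw (64 * 2 ^ x.2.1) x.2.2.2.1 *
      (uw (64 * 2 ^ x.2.1 * p.ell ^ (if kick then ko + 1 else ko - p.b)) x.2.2.2.2.1 *
        uw (64 * 2 ^ x.2.1) x.2.2.2.2.2))))) half_bool (fun _ => h5 kick ko)
  have h3 : ∀ (kick : Bool) (ko : ℕ),
      ∑' x : Bool × Bool × ℕ × ℕ × (Fin p.d → ℤ) × (Fin p.d → ℤ) × (Fin p.d → ℤ) ×
        (Fin p.d → ℤ),
      (2 : ℝ≥0∞)⁻¹ * ((2 : ℝ≥0∞)⁻¹ * (sw (p.L * p.ell ^ (ko + 1)) x.2.2.1 *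
      (gw x.2.2.2.1 * (uw (64 * 2 ^ x.2.2.2.1) x.2.2.2.2.1 *
      (uw (64 * 2 ^ x.2.2.2.1) x.2.2.2.2.2.1 *
      (uw (64 * 2 ^ x.2.2.2.1 * p.ell ^ (if kick then ko + 1 else ko - p.b)) x.2.2.2.2.2.2.1 *
        uw (64 * 2 ^ x.2.2.2.1) x.2.2.2.2.2.2.2)))))) ≤ 1 :=
    fun kick ko => kr_prod (fun _ : Bool => (2 : ℝ≥0∞)⁻¹)
      (fun _ (x : Bool × ℕ × ℕ × (Fin p.d → ℤ) × (Fin p.d → ℤ) × (Fin p.d → ℤ) × (Fin p.d → ℤ)) => (2 : ℝ≥0∞)⁻¹ * (sw (p.L * p.ell ^ (ko + 1)) x.2.1 *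
      (gw x.2.2.1 * (uw (64 * 2 ^ x.2.2.1) x.2.2.2.1 * (uw (64 * 2 ^ x.2.2.1) x.2.2.2.2.1 *
      (uw (64 * 2 ^ x.2.2.1 * p.ell ^ (if kick then ko + 1 else ko - p.b)) x.2.2.2.2.2.1 *
        uw (64 * 2 ^ x.2.2.1) x.2.2.2.2.2.2)))))) half_bool (fun _ => h4 kick ko)
  have h2 : ∀ (kick : Bool),
      ∑' x : ℕ × Bool × Bool × ℕ × ℕ × (Fin p.d → ℤ) × (Fin p.d → ℤ) × (Fin p.d → ℤ) ×
        (Fin p.d → ℤ),
      gw x.1 * ((2 : ℝ≥0∞)⁻¹ * ((2 : ℝ≥0∞)⁻¹ * (sw (p.L * p.ell ^ (x.1 + 1)) x.2.2.2.1 *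
      (gw x.2.2.2.2.1 * (uw (64 * 2 ^ x.2.2.2.2.1) x.2.2.2.2.2.1 *
      (uw (64 * 2 ^ x.2.2.2.2.1) x.2.2.2.2.2.2.1 *
      (uw (64 * 2 ^ x.2.2.2.2.1 * p.ell ^ (if kick then x.1 + 1 else x.1 - p.b))
        x.2.2.2.2.2.2.2.1 *
        uw (64 * 2 ^ x.2.2.2.2.1) x.2.2.2.2.2.2.2.2))))))) ≤ 1 :=
    fun kick => kr_prod (fun ko : ℕ => gw ko)
      (fun ko (x : Bool × Bool × ℕ × ℕ × (Fin p.d → ℤ) × (Fin p.d → ℤ) × (Fin p.d → ℤ) × (Fin p.d → ℤ)) => (2 : ℝ≥0∞)⁻¹ * ((2 : ℝ≥0∞)⁻¹ * (sw (p.L * p.ell ^ (ko + 1)) x.2.2.1 *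
      (gw x.2.2.2.1 * (uw (64 * 2 ^ x.2.2.2.1) x.2.2.2.2.1 *
      (uw (64 * 2 ^ x.2.2.2.1) x.2.2.2.2.2.1 *
      (uw (64 * 2 ^ x.2.2.2.1 * p.ell ^ (if kick then ko + 1 else ko - p.b)) x.2.2.2.2.2.2.1 *
        uw (64 * 2 ^ x.2.2.2.1) x.2.2.2.2.2.2.2))))))) kr_gw (fun ko => h3 kick ko)
  have h1 := kr_prod (fun _ : Bool => (2 : ℝ≥0∞)⁻¹)
      (fun (kick : Bool) (x : ℕ × Bool × Bool × ℕ × ℕ × (Fin p.d → ℤ) × (Fin p.d → ℤ) ×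
        (Fin p.d → ℤ) × (Fin p.d → ℤ)) =>
      gw x.1 * ((2 : ℝ≥0∞)⁻¹ * ((2 : ℝ≥0∞)⁻¹ * (sw (p.L * p.ell ^ (x.1 + 1)) x.2.2.2.1 *
      (gw x.2.2.2.2.1 * (uw (64 * 2 ^ x.2.2.2.2.1) x.2.2.2.2.2.1 *
      (uw (64 * 2 ^ x.2.2.2.2.1) x.2.2.2.2.2.2.1 *
      (uw (64 * 2 ^ x.2.2.2.2.1 * p.ell ^ (if kick then x.1 + 1 else x.1 - p.b))
        x.2.2.2.2.2.2.2.1 *
        uw (64 * 2 ^ x.2.2.2.2.1) x.2.2.2.2.2.2.2.2)))))))) half_bool h2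
  refine le_trans (le_of_eq ?_) h1
  refine tsum_congr fun e => ?_
  unfold Par.cEnt
  ring

/-- lists as empty or head and tail -/
def consEquiv (α : Type) : Unit ⊕ (α × List α) ≃ List α where
  toFun
    | Sum.inl _ => []
    | Sum.inr x => x.1 :: x.2
  invFun
    | [] => Sum.inl ()
    | a :: l => Sum.inr (a, l)
  left_inv := by
    rintro (_ | ⟨a, l⟩) <;> rfl
  right_inv := by
    rintro (_ | ⟨a, l⟩) <;> rfl

theorem tsum_list {α : Type} (F : List α → ℝ≥0∞) :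
    ∑' l, F l = F [] + ∑' x : α × List α, F (x.1 :: x.2) := by
  rw [← (consEquiv α).tsum_eq F, Summable.tsum_sum ENNReal.summable ENNReal.summable,
    tsum_fintype]
  simp [consEquiv]

theorem kr_len (n : ℕ) :
    ∑' l : List (Par.Ent p.d), (if l.length ≤ n then p.cList l else 0) ≤ 1 := by
  induction n with
  | zero =>
    rw [tsum_list]
    simp [Par.cList]
  | succ n ih =>
    rw [tsum_list]
    have h := kr_prod (fun e : Par.Ent p.d => p.cEnt e)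
      (fun _ (l : List (Par.Ent p.d)) => if l.length ≤ n then p.cList l else 0)
      (kr_cEnt p) (fun _ => ih)
    have h2 : ∑' x : Par.Ent p.d × List (Par.Ent p.d),
        (if (x.1 :: x.2).length ≤ n + 1 then p.cList (x.1 :: x.2) else 0) =
        2⁻¹ * ∑' x : Par.Ent p.d × List (Par.Ent p.d),
          p.cEnt x.1 * (if x.2.length ≤ n then p.cList x.2 else 0) := by
      rw [← ENNReal.tsum_mul_left]
      refine tsum_congr fun x => ?_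
      by_cases hx : x.2.length ≤ n
      · rw [if_pos (by simpa using hx), if_pos hx]
        simp only [Par.cList]
        ring
      · rw [if_neg (by simpa using hx), if_neg hx]
        simp
    rw [h2]
    calc (if ([] : List (Par.Ent p.d)).length ≤ n + 1 then p.cList [] else 0) +
          2⁻¹ * ∑' x : Par.Ent p.d × List (Par.Ent p.d),
          p.cEnt x.1 * (if x.2.length ≤ n then p.cList x.2 else 0)
        ≤ 2⁻¹ + 2⁻¹ * 1 := by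
          refine add_le_add ?_ (mul_le_mul_right h _)
          simp [Par.cList]
      _ = 1 := by rw [mul_one, ENNReal.inv_two_add_inv_two]

theorem kr_cList : ∑' l : List (Par.Ent p.d), p.cList l ≤ 1 := by
  rw [ENNReal.tsum_eq_iSup_sum]
  refine iSup_le fun s => ?_
  refine le_trans ?_ (kr_len p (s.sup List.length))
  refine le_trans ?_ (ENNReal.sum_le_tsum s)
  refine Finset.sum_le_sum fun l hl => ?_
  rw [if_pos (Finset.le_sup (f := List.length) hl)]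

end KDB.I.K3
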